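import Pool.Agent.H30BC.Rect
import Pool.Agent.H30BC.Total
import Pool.Agent.H30BC.Orders
import Pool.Graph.R_seed8.Results.MP_7bf775_co.CappedCover

/-!
MP_7bf775_co, Q1: capped ordered graphs have biclique covers of size `C n log² n`, and this is
optimal: there are capped ordered graphs on `n` vertices, for all `n ≥ 2`, all biclique covers of
which have size at least `c n log² n`.

The graph is the dominance graph of the bit-reversal permutation: the vertices are the points
`z ∈ {0,1}^m` in lexicographic order, followed by the same points in the lexicographic order from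
the right; `z` of the first copy is adjacent to `z'` of the second if `z ≤ z'` in both orders. The
pair gets the weight `2 ^ (-(l-k))` if the first difference is at `k` and the last at `l > k`. All
pairs together have weight at least `2 ^ m m (m - 1) / 16`, a biclique `(A, B)` at most
`9 (|A| + |B|)`.
-/

set_option autoImplicit false

open Finset

namespace Pool.Agent.Results.MP_7bf775_co.Optimal

open Pool.Agent.Results.MP_7bf775_co.CappedCover (Capped IsBiclique IsBicliqueCover coverSize)
open Pool.Agent.H30BC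

lemma swap_list {α β : Type*} (s : Finset α) (L : List β) (f : α → β → ℝ) :
    ∑ a ∈ s, (L.map (f a)).sum = (L.map (fun b => ∑ a ∈ s, f a b)).sum := by
  induction L with
  | nil => simp
  | cons b L ih =>
    simp only [List.map_cons, List.sum_cons]
    rw [sum_add_distrib, ih]

lemma le_sum_of_mem {β : Type*} (L : List β) (f : β → ℝ) (hf : ∀ b, 0 ≤ f b) {b : β}
    (hb : b ∈ L) : f b ≤ (L.map f).sum :=
  List.single_le_sum (by
    intro x hx
    obtain ⟨y, -, rfl⟩ := List.mem_map.1 hx
    exact hf y) _ (List.mem_map.2 ⟨b, hb, rfl⟩)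

/-- the lower bound for `n ≥ 2 ^ (m + 1)` vertices -/
theorem lower (m n : ℕ) (hn : 2 * 2 ^ m ≤ n) : ∃ G : SimpleGraph (Fin n), Capped G ∧
    ∀ L, IsBicliqueCover G L → (2 : ℝ) ^ m * (m * (m - 1)) / 144 ≤ coverSize L := by
  classical
  obtain ⟨r, c, hr, hc, hr1, hc1⟩ := exists_num m
  have hrinj : Function.Injective r := by
    intro x y h
    by_contra hne
    rcases lt_or_gt_of_ne (fun h' => hne (o1_inj h')) with h1 | h1
    · exact absurd ((hr1 _ _).2 h1) (by omega)
    · exact absurd ((hr1 _ _).2 h1) (by omega)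
  have hcinj : Function.Injective c := by
    intro x y h
    by_contra hne
    rcases lt_or_gt_of_ne (fun h' => hne (o2_inj h')) with h1 | h1
    · exact absurd ((hc1 _ _).2 h1) (by omega)
    · exact absurd ((hc1 _ _).2 h1) (by omega)
  let row : Z m → Fin n := fun z => ⟨r z, by have := hr z; omega⟩
  let col : Z m → Fin n := fun z => ⟨2 ^ m + c z, by have := hc z; omega⟩
  have hrow : ∀ z, ((row z : Fin n) : ℕ) = r z := fun _ => rfl
  have hcol : ∀ z, ((col z : Fin n) : ℕ) = 2 ^ m + c z := fun _ => rfl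
  have hrc : ∀ z z', row z < col z' := by
    intro z z'
    show (row z : ℕ) < col z'
    rw [hrow, hcol]
    have := hr z
    omega
  have hrowinj : Function.Injective row := fun x y h => hrinj (by
    have := congrArg (fun v : Fin n => (v : ℕ)) h
    simpa [hrow] using this)
  have hcolinj : Function.Injective col := fun x y h => hcinj (by
    have := congrArg (fun v : Fin n => (v : ℕ)) h
    simpa [hcol] using this)
  let Adj : Fin n → Fin n → Prop := fun u v => ∃ z z', o1 z ≤ o1 z' ∧ o2 z ≤ o2 z' ∧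
    ((u = row z ∧ v = col z') ∨ (v = row z ∧ u = col z'))
  let G : SimpleGraph (Fin n) :=
    { Adj := Adj
      symm := ⟨by
        rintro u v ⟨z, z', h1, h2, h3⟩
        exact ⟨z, z', h1, h2, h3.symm⟩⟩
      loopless := ⟨by
        rintro u ⟨z, z', -, -, ⟨h1, h2⟩ | ⟨h1, h2⟩⟩
        · exact (hrc z z').ne (h1.symm.trans h2)
        · exact (hrc z z').ne (h1.symm.trans h2)⟩ }
  have hG : ∀ z z', G.Adj (row z) (col z') ↔ o1 z ≤ o1 z' ∧ o2 z ≤ o2 z' := by
    intro z z'
    constructor
    · rintro ⟨x, x', h1, h2, ⟨h3, h4⟩ | ⟨h3, h4⟩⟩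
      · obtain rfl := hrowinj h3
        obtain rfl := hcolinj h4
        exact ⟨h1, h2⟩
      · exact absurd h3 (hrc x z').ne'
    · rintro ⟨h1, h2⟩
      exact ⟨z, z', h1, h2, Or.inl ⟨rfl, rfl⟩⟩
  have hlt : ∀ u v, u < v → G.Adj u v → ∃ z z', o1 z ≤ o1 z' ∧ o2 z ≤ o2 z' ∧ u = row z ∧
      v = col z' := by
    rintro u v huv ⟨z, z', h1, h2, ⟨h3, h4⟩ | ⟨h3, h4⟩⟩
    · exact ⟨z, z', h1, h2, h3, h4⟩
    · subst h3 h4
      exact absurd huv (not_lt.2 (hrc z z').le)
  refine ⟨G, ?_, ?_⟩
  · intro i j k l hij hjk hkl h1 h2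
    obtain ⟨zi, zk, a1, a2, rfl, rfl⟩ := hlt i k (hij.trans hjk) h1
    obtain ⟨zj, zl, b1, b2, rfl, rfl⟩ := hlt j l (hjk.trans hkl) h2
    rw [hG]
    have e1 : o1 zi < o1 zj := (hr1 _ _).1 hij
    have e2 : o2 zk < o2 zl := (hc1 _ _).1 (by
      have : 2 ^ m + c zk < 2 ^ m + c zl := hkl
      omega)
    exact ⟨(e1.trans_le b1).le, (a2.trans_lt e2).le⟩
  · intro L hL
    let A : Finset (Fin n) → Finset (Z m) := fun P => univ.filter (fun z => row z ∈ P)
    let B : Finset (Fin n) → Finset (Z m) := fun P => univ.filter (fun z => col z ∈ P)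
    let φ : Z m → Z m → Finset (Fin n) × Finset (Fin n) → ℝ := fun z z' p =>
      (if z ∈ A p.1 ∧ z' ∈ B p.2 then wt z z' else 0) +
      (if z ∈ A p.2 ∧ z' ∈ B p.1 then wt z z' else 0)
    have hφ0 : ∀ z z' p, 0 ≤ φ z z' p := by
      intro z z' p
      have := wt_nonneg z z'
      refine add_nonneg ?_ ?_ <;> split_ifs <;> first | exact this | exact le_rfl
    have h1 : ∀ z z', wt z z' ≤ (L.map (φ z z')).sum := by
      intro z z'
      by_cases h0 : wt z z' = 0
      · rw [h0]
        refine List.sum_nonneg ?_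
        intro x hx
        obtain ⟨p, -, rfl⟩ := List.mem_map.1 hx
        exact hφ0 _ _ _
      · obtain ⟨k, l, -, c1, c2, c3, c4, c5, c6⟩ := exists_cls h0
        have hadj : G.Adj (row z) (col z') := (hG z z').2 ⟨(o1_lt z z' k c1 c3 c4).le,
          (o2_lt z z' l c2 c5 c6).le⟩
        obtain ⟨p, hp, hcase⟩ := hL.2 _ _ hadj
        refine le_trans ?_ (le_sum_of_mem L (φ z z') (hφ0 z z') hp)
        have hw := wt_nonneg z z'
        rcases hcase with ⟨m1, m2⟩ | ⟨m1, m2⟩
        · have e1 : z ∈ A p.1 ∧ z' ∈ B p.2 :=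
            ⟨mem_filter.2 ⟨mem_univ _, m1⟩, mem_filter.2 ⟨mem_univ _, m2⟩⟩
          show wt z z' ≤ (if z ∈ A p.1 ∧ z' ∈ B p.2 then wt z z' else 0) +
            (if z ∈ A p.2 ∧ z' ∈ B p.1 then wt z z' else 0)
          rw [if_pos e1]
          split_ifs <;> linarith
        · have e1 : z ∈ A p.2 ∧ z' ∈ B p.1 :=
            ⟨mem_filter.2 ⟨mem_univ _, m2⟩, mem_filter.2 ⟨mem_univ _, m1⟩⟩
          show wt z z' ≤ (if z ∈ A p.1 ∧ z' ∈ B p.2 then wt z z' else 0) +
            (if z ∈ A p.2 ∧ z' ∈ B p.1 then wt z z' else 0)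
          rw [if_pos e1]
          split_ifs <;> linarith
    have hrect : ∀ P Q : Finset (Fin n), (∀ a ∈ P, ∀ b ∈ Q, G.Adj a b) →
        ∑ z : Z m, ∑ z' : Z m, (if z ∈ A P ∧ z' ∈ B Q then wt z z' else 0) ≤
        9 * (((A P).card : ℝ) + (B Q).card) := by
      intro P Q hPQ
      have e1 : ∑ z : Z m, ∑ z' : Z m, (if z ∈ A P ∧ z' ∈ B Q then wt z z' else 0) =
          ∑ z ∈ A P, ∑ z' ∈ B Q, wt z z' := by
        have : ∀ z, ∑ z' : Z m, (if z ∈ A P ∧ z' ∈ B Q then wt z z' else 0) =
            if z ∈ A P then ∑ z' ∈ B Q, wt z z' else 0 := by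
          intro z
          by_cases hz : z ∈ A P
          · simp only [hz, true_and, if_true]
            rw [sum_ite_mem, univ_inter]
          · simp only [hz, false_and, if_false, sum_const_zero]
        simp only [this]
        rw [sum_ite_mem, univ_inter]
      rw [e1]
      refine weight_le o1 o2 o1_lt o2_lt (A P) (B Q) fun z hz z' hz' => ?_
      exact (hG z z').1 (hPQ _ (mem_filter.1 hz).2 _ (mem_filter.1 hz').2)
    have hcard : ∀ P : Finset (Fin n), (((A P).card : ℝ) + (B P).card) ≤ P.card := by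
      intro P
      have e1 : ((A P).image row ∪ (B P).image col) ⊆ P := by
        intro v hv
        rcases mem_union.1 hv with hv | hv
        · obtain ⟨z, hz, rfl⟩ := mem_image.1 hv
          exact (mem_filter.1 hz).2
        · obtain ⟨z, hz, rfl⟩ := mem_image.1 hv
          exact (mem_filter.1 hz).2
      have e2 : Disjoint ((A P).image row) ((B P).image col) := by
        rw [disjoint_left]
        intro v hv hv'
        obtain ⟨z, -, rfl⟩ := mem_image.1 hv
        obtain ⟨z', -, h⟩ := mem_image.1 hv'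
        exact (hrc z z').ne h.symm
      have e3 := card_le_card e1
      rw [card_union_of_disjoint e2, card_image_of_injective _ hrowinj,
        card_image_of_injective _ hcolinj] at e3
      exact_mod_cast e3
    have h2 : ∑ z : Z m, ∑ z' : Z m, wt z z' ≤ 9 * (coverSize L : ℝ) := by
      calc ∑ z : Z m, ∑ z' : Z m, wt z z'
          ≤ ∑ z : Z m, ∑ z' : Z m, (L.map (φ z z')).sum :=
            sum_le_sum fun z _ => sum_le_sum fun z' _ => h1 z z'
        _ = ∑ z : Z m, (L.map (fun p => ∑ z' : Z m, φ z z' p)).sum :=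
            sum_congr rfl fun z _ => swap_list _ _ _
        _ = (L.map (fun p => ∑ z : Z m, ∑ z' : Z m, φ z z' p)).sum := swap_list _ _ _
        _ ≤ (L.map (fun p => 9 * ((p.1.card + p.2.card : ℕ) : ℝ))).sum := by
            refine List.sum_le_sum fun p hp => ?_
            obtain ⟨-, -, -, hadj⟩ := hL.1 p hp
            have e1 := hrect p.1 p.2 hadj
            have e2 := hrect p.2 p.1 (fun a ha b hb => (hadj b hb a ha).symm)
            have e3 := hcard p.1
            have e4 := hcard p.2
            show ∑ z : Z m, ∑ z' : Z m, ((if z ∈ A p.1 ∧ z' ∈ B p.2 then wt z z' else 0) +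
              (if z ∈ A p.2 ∧ z' ∈ B p.1 then wt z z' else 0)) ≤ _
            simp only [sum_add_distrib]
            push_cast
            linarith
        _ = 9 * (coverSize L : ℝ) := by
            unfold coverSize
            rw [List.sum_map_mul_left]
            congr 1
            rw [Nat.cast_list_sum, List.map_map]
            rfl
    have h3 := total_weight (m := m)
    linarith

/-- There are absolute constants `C` and `c > 0` such that, for all `n ≥ 2`,
(1) every capped ordered graph on `n` vertices has a biclique cover of size at most `C n log² n`;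
(2) there is a capped ordered graph on `n` vertices all biclique covers of which have size at least
`c n log² n`. -/
theorem result :
    (∃ C : ℝ, ∀ n : ℕ, 2 ≤ n → ∀ G : SimpleGraph (Fin n), Capped G →
      ∃ L : List (Finset (Fin n) × Finset (Fin n)), IsBicliqueCover G L ∧
        (coverSize L : ℝ) ≤ C * n * (Real.log n) ^ 2) ∧
    (∃ c : ℝ, 0 < c ∧ ∀ n : ℕ, 2 ≤ n → ∃ G : SimpleGraph (Fin n), Capped G ∧
      ∀ L : List (Finset (Fin n) × Finset (Fin n)), IsBicliqueCover G L →
        c * n * (Real.log n) ^ 2 ≤ (coverSize L : ℝ)) := by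
  refine ⟨Pool.Agent.Results.MP_7bf775_co.CappedCover.result, 1 / 4608, by norm_num, ?_⟩
  intro n hn
  have hn1 : (1 : ℝ) ≤ n := by exact_mod_cast (by omega : 1 ≤ n)
  have hlog0 : 0 ≤ Real.log n := Real.log_nonneg hn1
  by_cases h8 : n < 8
  · refine ⟨⊤, ?_, ?_⟩
    · intro i j k l hij hjk hkl _ _
      rw [SimpleGraph.top_adj]
      exact (hij.trans (hjk.trans hkl)).ne
    · intro L hL
      have hadj : (⊤ : SimpleGraph (Fin n)).Adj ⟨0, by omega⟩ ⟨1, by omega⟩ := by
        rw [SimpleGraph.top_adj]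
        simp
      obtain ⟨p, hp, -⟩ := hL.2 _ _ hadj
      have h1 : (1 : ℝ) ≤ coverSize L := by
        have h2 : p.1.card + p.2.card ≤ coverSize L :=
          List.single_le_sum (by simp) _ (List.mem_map.2 ⟨p, hp, rfl⟩)
        have h3 := (hL.1 p hp).1.card_pos
        exact_mod_cast (by omega : 1 ≤ coverSize L)
      have h2 : (n : ℝ) ≤ 8 := by exact_mod_cast h8.le
      have h3 : Real.log n ≤ 8 := (Real.log_le_sub_one_of_pos (by linarith)).trans (by linarith)
      have h4 : (Real.log n) ^ 2 ≤ 8 ^ 2 := pow_le_pow_left₀ hlog0 h3 2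
      calc 1 / 4608 * (n : ℝ) * (Real.log n) ^ 2 ≤ 1 / 4608 * 8 * 8 ^ 2 := by gcongr
        _ ≤ 1 := by norm_num
        _ ≤ _ := h1
  · have h8' : 8 ≤ n := not_lt.1 h8
    set m := Nat.log 2 n - 1 with hm
    have hlog3 : 3 ≤ Nat.log 2 n := by
      have := Nat.log_mono_right (b := 2) h8'
      have h : Nat.log 2 8 = 3 := by norm_num [Nat.log]
      omega
    have h1 : 2 * 2 ^ m ≤ n := by
      have h := Nat.pow_log_le_self 2 (x := n) (by omega)
      have h2 : Nat.log 2 n = m + 1 := by omega
      rw [h2, pow_succ] at h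
      omega
    have h2 : n < 4 * 2 ^ m := by
      have h := Nat.lt_pow_succ_log_self (b := 2) (by norm_num) n
      have h2 : Nat.log 2 n = m + 1 := by omega
      rw [h2, pow_succ, pow_succ] at h
      omega
    obtain ⟨G, hG, hL⟩ := lower m n h1
    refine ⟨G, hG, fun L hc => le_trans ?_ (hL L hc)⟩
    have h2' : (n : ℝ) ≤ 4 * 2 ^ m := by exact_mod_cast h2.le
    have hm2 : (2 : ℝ) ≤ m := by exact_mod_cast (by omega : 2 ≤ m)
    have h3 : Real.log n ≤ m + 2 := by
      have e1 : Real.log n ≤ Real.log (4 * 2 ^ m) := Real.log_le_log (by linarith) h2'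
      have e2 : Real.log (4 * 2 ^ m) = (m + 2) * Real.log 2 := by
        have : (4 : ℝ) * 2 ^ m = 2 ^ (m + 2) := by rw [pow_add]; norm_num; ring
        rw [this, Real.log_pow]; push_cast; ring
      have e3 : Real.log 2 ≤ 1 := by linarith [Real.log_two_lt_d9]
      rw [e2] at e1
      nlinarith
    have h4 : (Real.log n) ^ 2 ≤ 8 * (m * (m - 1)) := by
      have : (Real.log n) ^ 2 ≤ ((m : ℝ) + 2) ^ 2 := pow_le_pow_left₀ hlog0 h3 2
      nlinarith
    calc 1 / 4608 * (n : ℝ) * (Real.log n) ^ 2
        ≤ 1 / 4608 * (4 * 2 ^ m) * (8 * (m * (m - 1))) := by gcongr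
      _ = (2 : ℝ) ^ m * (m * (m - 1)) / 144 := by ring

end Pool.Agent.Results.MP_7bf775_co.Optimal
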